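import Pool.Agent.Helper47.RB.St
import Pool.Agent.Helper49.RC.Bridge

/-!
# Project RB: the statements in all weights in degrees four and five (modules U4, U5)
-/

set_option autoImplicit false

namespace Helper90.RB

open MvPolynomial Helper49.RA Helper49.RC Helper47.RB

universe u

variable {k : Type u} [Field k]

/-! ### Values -/

theorem val_wt {Φ : MvPolynomial (Fin 30) k →ₗ[k] k} (h : IsPh k Φ) {a b c d : Fin 30}
    (hw : w a + w b + w c + w d ≠ 0) : Φ (X a * X b * X c * X d) = 0 := by
  rw [h.val]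
  split_ifs with h1
  · exfalso
    apply hw
    have h2 := tau_wt h1
    unfold w
    have h3 : ((Wt a.val + Wt b.val + (Wt c.val + Wt d.val) : ℕ) : ZMod 61) = 0 := by
      rw [ZMod.natCast_eq_zero_iff]
      exact Nat.dvd_of_mod_eq_zero h2
    push_cast at h3
    rw [← h3]
    ring
  · rfl

theorem pd_X (a i : Fin 30) :
    (pderiv a (X i) : MvPolynomial (Fin 30) k) = if a = i then 1 else 0 := by
  rw [pderiv_X]
  by_cases h : a = i
  · subst h; rw [Pi.single_eq_same, if_pos rfl]
  · rw [Pi.single_eq_of_ne (Ne.symm h), if_neg h]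

theorem pd_four (a i j l n : Fin 30) :
    (pderiv a (X i * X j * X l * X n) : MvPolynomial (Fin 30) k) =
      (if a = i then X j * X l * X n else 0) + (if a = j then X i * X l * X n else 0) +
      (if a = l then X i * X j * X n else 0) + (if a = n then X i * X j * X l else 0) := by
  rw [pderiv_mul, pderiv_mul, pderiv_mul, pd_X, pd_X, pd_X, pd_X]
  split_ifs <;> ring

theorem phi_ite (Φ : MvPolynomial (Fin 30) k →ₗ[k] k) (P : Prop) [Decidable P]
    (r : MvPolynomial (Fin 30) k) : Φ (if P then r else 0) = if P then Φ r else 0 := by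
  split_ifs
  · rfl
  · exact map_zero _

/-- the value on `X b ∂_a t` vanishes by weights -/
theorem m_wt {Φ : MvPolynomial (Fin 30) k →ₗ[k] k} (h : IsPh k Φ) {a b i j l n : Fin 30}
    (hw : w a - w b ≠ w i + w j + w l + w n) :
    Φ (X b * pderiv a (X i * X j * X l * X n)) = 0 := by
  rw [pd_four, mul_add, mul_add, mul_add, map_add, map_add, map_add]
  have e : ∀ (i j l n : Fin 30), w a - w b ≠ w i + w j + w l + w n →
      Φ (X b * if a = i then X j * X l * X n else 0) = 0 := by
    intro i j l n hw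
    by_cases h1 : a = i
    · rw [if_pos h1]
      have e1 : (X b * (X j * X l * X n) : MvPolynomial (Fin 30) k) = X b * X j * X l * X n := by
        ring
      rw [e1]
      refine val_wt h ?_
      intro h2
      apply hw
      rw [h1]
      linear_combination (-1 : ZMod 61) * h2
    · rw [if_neg h1, mul_zero, map_zero]
  have e2 : w a - w b ≠ w j + w i + w l + w n := by
    intro h2; apply hw; rw [h2]; ring
  have e3 : w a - w b ≠ w l + w i + w j + w n := by
    intro h2; apply hw; rw [h2]; ring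
  have e4 : w a - w b ≠ w n + w i + w j + w l := by
    intro h2; apply hw; rw [h2]; ring
  rw [e i j l n hw, e j i l n e2, e l i j n e3, e n i j l e4]
  simp

/-- the value on `∂_a t` vanishes by weights -/
theorem l_wt {Φ : MvPolynomial (Fin 30) k →ₗ[k] k} (h : IsPh k Φ) {a i j p q r : Fin 30}
    (hw : w a ≠ w i + w j + w p + w q + w r) :
    Φ (pderiv a (X i * (X j * X p * X q * X r))) = 0 := by
  rw [pderiv_mul, map_add, pd_X]
  have e1 : Φ ((if a = i then 1 else 0) * (X j * X p * X q * X r)) = 0 := by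
    by_cases h1 : a = i
    · rw [if_pos h1, one_mul]
      refine val_wt h ?_
      intro h2
      apply hw
      rw [h1]
      linear_combination (-1 : ZMod 61) * h2
    · rw [if_neg h1, zero_mul, map_zero]
  have e2 : Φ (X i * pderiv a (X j * X p * X q * X r)) = 0 := by
    refine m_wt h ?_
    intro h2
    apply hw
    linear_combination h2
  rw [e1, e2, add_zero]

/-! ### The action on weights -/

/-- the inverse of the permutation -/
noncomputable def pe : Fin 30 ≃ Fin 30 := Equiv.ofBijective p1 p1_bij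

theorem pe_apply (i : Fin 30) : pe i = p1 i := rfl

theorem p1_symm (i : Fin 30) : p1 (pe.symm i) = i := pe.apply_symm_apply i

theorem twelve_cancel {x y : ZMod 61} (h : 12 * x = 12 * y) : x = y := by
  have h1 : (56 * 12 : ZMod 61) = 1 := by decide
  calc x = 56 * 12 * x := by rw [h1, one_mul]
    _ = 56 * (12 * x) := by ring
    _ = 56 * (12 * y) := by rw [h]
    _ = 56 * 12 * y := by ring
    _ = y := by rw [h1, one_mul]

theorem w_symm (i : Fin 30) : w i = 12 * w (pe.symm i) := by
  rw [← w_p1, p1_symm]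

theorem sg_X (i : Fin 30) : sg k (X i) = X (p1 i) := by
  unfold sg
  exact rename_X _ _

theorem B4_step (h1 : StU1.{u}) {Φ : MvPolynomial (Fin 30) k →ₗ[k] k} (h : IsPh k Φ)
    {v : ZMod 61} (hB : B4 Φ v) : B4 Φ (12 * v) := by
  obtain ⟨hΦ, -, hK, hd⟩ := h1 k Φ h
  intro G hG
  obtain ⟨β, m, hβ, hm, hv⟩ := hB _ (hK G hG)
  refine ⟨β, fun a b => m (pe.symm a) (pe.symm b), ?_, ?_, ?_⟩
  · intro h2
    refine hβ ?_
    rintro rfl
    exact h2 (mul_zero _)
  · intro a b hab
    refine hm _ _ ?_
    intro h2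
    apply hab
    rw [w_symm a, w_symm b, ← h2]
    ring
  · intro i j l n hw
    have hw' : w (pe.symm i) + w (pe.symm j) + w (pe.symm l) + w (pe.symm n) = v := by
      apply twelve_cancel
      rw [← hw, w_symm i, w_symm j, w_symm l, w_symm n]
      ring
    have h2 := hv _ _ _ _ hw'
    have e1 : sg k (X (pe.symm i) * X (pe.symm j) * X (pe.symm l) * X (pe.symm n)) =
        X i * X j * X l * X n := by
      rw [map_mul, map_mul, map_mul, sg_X, sg_X, sg_X, sg_X, p1_symm, p1_symm, p1_symm, p1_symm]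
    have e2 : (G ∘ₗ (sg k).toLinearMap)
        (X (pe.symm i) * X (pe.symm j) * X (pe.symm l) * X (pe.symm n)) =
        G (X i * X j * X l * X n) := by
      rw [← e1]
      rfl
    rw [← e2, h2]
    congr 1
    · rw [← hΦ (X (pe.symm i) * X (pe.symm j) * X (pe.symm l) * X (pe.symm n)), e1]
    · refine Eq.trans ?_ (Equiv.sum_comp pe (fun a => ∑ b, m (pe.symm a) (pe.symm b) *
        Φ (X b * pderiv a (X i * X j * X l * X n))))
      refine Finset.sum_congr rfl fun a _ => ?_
      refine Eq.trans ?_ (Equiv.sum_comp pe (fun b => m (pe.symm (pe a)) (pe.symm b) *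
        Φ (X b * pderiv (pe a) (X i * X j * X l * X n))))
      refine Finset.sum_congr rfl fun b _ => ?_
      rw [Equiv.symm_apply_apply, Equiv.symm_apply_apply]
      congr 1
      rw [← hΦ, map_mul, sg_X, ← hd, e1]
      rfl

theorem B5_step (h1 : StU1.{u}) {Φ : MvPolynomial (Fin 30) k →ₗ[k] k} (h : IsPh k Φ)
    {v : ZMod 61} (hB : B5 Φ v) : B5 Φ (12 * v) := by
  obtain ⟨hΦ, -, hK, hd⟩ := h1 k Φ h
  intro G hG
  obtain ⟨l, hv⟩ := hB _ (hK G hG)
  refine ⟨fun a => l (pe.symm a), ?_⟩
  intro i j p q r hw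
  have hw' : w (pe.symm i) + w (pe.symm j) + w (pe.symm p) + w (pe.symm q) +
      w (pe.symm r) = v := by
    apply twelve_cancel
    rw [← hw, w_symm i, w_symm j, w_symm p, w_symm q, w_symm r]
    ring
  have h2 := hv _ _ _ _ _ hw'
  have e1 : sg k (X (pe.symm i) * (X (pe.symm j) * X (pe.symm p) * X (pe.symm q) *
      X (pe.symm r))) = X i * (X j * X p * X q * X r) := by
    rw [map_mul, map_mul, map_mul, map_mul, sg_X, sg_X, sg_X, sg_X, sg_X, p1_symm, p1_symm,
      p1_symm, p1_symm, p1_symm]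
  have e2 : (G ∘ₗ (sg k).toLinearMap)
      (X (pe.symm i) * (X (pe.symm j) * X (pe.symm p) * X (pe.symm q) * X (pe.symm r))) =
      G (X i * (X j * X p * X q * X r)) := by
    rw [← e1]
    rfl
  rw [← e2, h2]
  refine Eq.trans ?_ (Equiv.sum_comp pe (fun a => l (pe.symm a) *
    Φ (pderiv a (X i * (X j * X p * X q * X r)))))
  refine Finset.sum_congr rfl fun a _ => ?_
  rw [Equiv.symm_apply_apply]
  congr 1
  rw [← hΦ, ← hd, e1]
  rfl

theorem all_wt {P : ZMod 61 → Prop} (h : ∀ u ∈ reps, P u) (hs : ∀ v, P v → P (12 * v)) :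
    ∀ v, P v := by
  intro v
  obtain ⟨u0, hu0, n, -, rfl⟩ := reps_cyc v
  have h2 : ∀ n : ℕ, P (12 ^ n * u0) := by
    intro n
    induction n with
    | zero => rw [pow_zero, one_mul]; exact h u0 hu0
    | succ n ih =>
      have := hs _ ih
      rwa [← mul_assoc, ← pow_succ'] at this
  exact h2 n

/-- **Module U4.** -/
theorem hU4 (h1 : StU1.{u}) : StU4.{u} := by
  intro k _ Φ h hB G hG
  have hall : ∀ v, B4 Φ v := all_wt hB (fun v hv => B4_step h1 h hv)
  choose β m hβ hm hv using fun v => hall v G hG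
  refine ⟨β 0, fun a b => m (w a - w b) a b, ?_⟩
  have hmon : ∀ i j l n : Fin 30, G (X i * X j * X l * X n) = β 0 * Φ (X i * X j * X l * X n) +
      ∑ a, ∑ b, m (w a - w b) a b * Φ (X b * pderiv a (X i * X j * X l * X n)) := by
    intro i j l n
    rw [hv _ i j l n rfl]
    congr 1
    · by_cases h2 : w i + w j + w l + w n = 0
      · rw [h2]
      · rw [hβ _ h2, val_wt h h2, zero_mul, mul_zero]
    · refine Finset.sum_congr rfl fun a _ => Finset.sum_congr rfl fun b _ => ?_
      by_cases h2 : w a - w b = w i + w j + w l + w n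
      · rw [h2]
      · rw [m_wt h h2, mul_zero, mul_zero]
  intro s hs
  let H : MvPolynomial (Fin 30) k →ₗ[k] k :=
    G - (β 0 • Φ + ∑ a, ∑ b, m (w a - w b) a b • (Φ ∘ₗ LinearMap.mulLeft k
      (X b : MvPolynomial (Fin 30) k) ∘ₗ
      (pderiv a : Derivation k (MvPolynomial (Fin 30) k) (MvPolynomial (Fin 30) k)).toLinearMap))
  have hH : ∀ r, H r = G r - (β 0 * Φ r +
      ∑ a, ∑ b, m (w a - w b) a b * Φ (X b * pderiv a r)) := by
    intro r
    show (G - (β 0 • Φ + ∑ a, ∑ b, m (w a - w b) a b • (Φ ∘ₗ LinearMap.mulLeft k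
      (X b : MvPolynomial (Fin 30) k) ∘ₗ
      (pderiv a : Derivation k (MvPolynomial (Fin 30) k)
        (MvPolynomial (Fin 30) k)).toLinearMap))) r = _
    rw [LinearMap.sub_apply, LinearMap.add_apply, LinearMap.smul_apply, LinearMap.sum_apply]
    simp only [LinearMap.sum_apply, LinearMap.smul_apply, smul_eq_mul]
    rfl
  have hW : H s = 0 := by
    refine ext4 H (fun a b c d => ?_) s hs
    rw [hH, sub_eq_zero]
    exact hmon a b c d
  rw [hH, sub_eq_zero] at hW
  exact hW

/-- **Module U5.** -/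
theorem hU5 (h1 : StU1.{u}) : StU5.{u} := by
  intro k _ Φ h hB G hG
  have hall : ∀ v, B5 Φ v := all_wt hB (fun v hv => B5_step h1 h hv)
  choose l hv using fun v => hall v G hG
  refine ⟨fun a => l (w a) a, ?_⟩
  have hmon : ∀ i j p q r : Fin 30, G (X i * (X j * X p * X q * X r)) =
      ∑ a, l (w a) a * Φ (pderiv a (X i * (X j * X p * X q * X r))) := by
    intro i j p q r
    rw [hv _ i j p q r rfl]
    refine Finset.sum_congr rfl fun a _ => ?_
    by_cases h2 : w a = w i + w j + w p + w q + w r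
    · rw [h2]
    · rw [l_wt h h2, mul_zero, mul_zero]
  intro s hs
  let H : MvPolynomial (Fin 30) k →ₗ[k] k :=
    G - ∑ a, l (w a) a • (Φ ∘ₗ
      (pderiv a : Derivation k (MvPolynomial (Fin 30) k) (MvPolynomial (Fin 30) k)).toLinearMap)
  have hH : ∀ r, H r = G r - ∑ a, l (w a) a * Φ (pderiv a r) := by
    intro r
    show (G - ∑ a, l (w a) a • (Φ ∘ₗ
      (pderiv a : Derivation k (MvPolynomial (Fin 30) k)
        (MvPolynomial (Fin 30) k)).toLinearMap)) r = _
    rw [LinearMap.sub_apply, LinearMap.sum_apply]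
    simp only [LinearMap.smul_apply, smul_eq_mul]
    rfl
  have hW : H s = 0 := by
    refine extS H 4 (fun i t ht => ?_) s hs
    refine ext4 (H ∘ₗ LinearMap.mulLeft k (X i : MvPolynomial (Fin 30) k))
      (fun a b c d => ?_) t ht
    show H (X i * (X a * X b * X c * X d)) = 0
    rw [hH, sub_eq_zero]
    exact hmon i a b c d
  rw [hH, sub_eq_zero] at hW
  exact hW

end Helper90.RB
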